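import Pool.Agent.Run7.h260.TW.Prd

/-!
# Varieties of negative Kodaira dimension dominated by towers over products with a curve

A product tower of dimension `n` with the bound `s` (`ProductTower 2 n K s`) is a sequence of dominant
rational maps of finite degree `V = V_0 ⇢ V_1 ⇢ ... ⇢ V_k` between varieties of dimension `n` over `ℂ`. At
the step `V_i ⇢ V_(i + 1)`, of degree `b_i`, the canonical bundle of `V_i` is positive relative to
`V_(i + 1)` (`Positive`): `V_(i + 1)` is the image of `V_i` in a projective space, and for all varieties
`Y'`, `V_i ⇢ Y' ⇢ V_(i + 1)`, of degree `> 1` over `V_(i + 1)` there is a section of `K_(V_i) - m H` with a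
nonzero trace on `Y'`, where `s_i ≤ [V_i : Y'] (m + 1)`; for instance cyclic coverings of prime degree
branched along a sufficiently positive divisor. The bounds are `s_0 = s`, `s_(i + 1) = ⌊s_i / b_i⌋`. The
last variety `V_k`, with the bound `s_k`, is

* a product `X_0 × ... × X_(t - 1) × C` (`IsProduct`), where `C` is any smooth projective curve, and each
  `X_i` has a number `g_i > s_k` and is either a curve of gonality at least `g_i` or a variety in
  projective `(M + 1)`-space which is cut out by equations of degree at most `D` and has the regular
  canonical forms `P(x) ω₀` for all forms `P` of degree `m` (for instance a smooth complete intersection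
  of codimension at least two), `m ≥ 7 N + 4`, `(M + 1) N < m + M + 2`, `D + N ≤ m + 2`,
  `g_i ≤ (N + 1) (m + 2 - N)` for some `N` (`Factor`); `t = 0` is allowed; or
* a smooth hypersurface of degree `d` in `ℙ^(n + 1)`, where for some `N` one has `d ≥ 7 N + n + 6`,
  `d > (n + 1) N`, `d > 2 (N + n - 1)` and `s_k < (N + 1) (d - n - N)`; or a variety with a generically
  finite map of any degree to a variety of low degree as above, `s_k < (N + 1) (m + 2 - N)`; or
* any uniruled variety, without condition on `s_k`.

**Theorem.** Let `V` be the first variety of such a tower with the bound `s = r`, and let `W` be a variety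
with a dominant rational map `V ⇢ W` of degree `r`. The map is arbitrary: not a quotient by a group, not
related to the tower, with any ramification. Then these are equivalent: `p_g(W) = 0`; `κ(W) = -∞`; `K_W` is
not pseudo-effective; `W` is uniruled.

So Q1 has a positive answer for all projective manifolds `W` of this kind. Towers over products are the
first towers here whose images have intermediate Kodaira dimensions: `C` may be elliptic, and then
`κ(W) = dim W - 1` is possible.

Proof. If `p_g(W) = 0` then all traces on `W` of canonical forms vanish, and at each step `V_i ⇢ W`
factors through `V_(i + 1)` (`R882.Over.factors_step`), with the degree `[V_(i + 1) : W] = [V_i : W] / b_i`.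
At the bottom, the theorem on products (`N162.GQ.mprod_genus`) can be applied, since the degrees `d_i`
in it are at most `[V_k : W] ≤ s_k < g_i`; or the ones on hypersurfaces and on varieties of low degree,
as in `ImagesOfTowers`. The starting files have the theorem for products themselves
(`ProductWithCurveGenusZero` and others), and for towers over uniruled varieties; the towers over
products are new.
-/

set_option autoImplicit false

open FF Pool.Agent.W602.GT
open Pool.Agent.W619.PQ (IsUniruled)
open Pool.Agent.R882.Over (GenusZero)
open Pool.Agent.Run7.h260.TW (ProductTower)

namespace Pool.Agent.Results.MP_e06174_ag.ImagesOfProductTowers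

/-- **Images of towers over products.** Let `K` be the function field of the first variety `V` of a
tower of dimension `n ≥ 1` with the bound `[K : L]`, over a product of varieties of low degree, curves of
large gonality and an arbitrary curve, over a smooth hypersurface or a covering of a variety of low
degree, or over a uniruled variety, where `L ⊆ K` is the function field of `W`. Then `p_g(W) = 0`,
`κ(W) = -∞`, `K_W` not pseudo-effective, and `W` uniruled are equivalent. -/
theorem result {n : ℕ} (hn : 1 ≤ n) {K : Type} [Field K] [Algebra ℂ K] [Algebra.EssFiniteType ℂ K]
    (hK : Algebra.trdeg ℂ K = n) (L : Type) [Field L] [Algebra ℂ L] [Algebra L K]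
    [IsScalarTower ℂ L K] [FiniteDimensional L K]
    (h : ProductTower 2 n K (Module.finrank L K)) :
    [GenusZero L n, ¬ KodGe ℂ L n (fun _ => False) 0, ¬ Psef ℂ L n (fun _ => False),
      IsUniruled ℂ L n].TFAE :=
  Pool.Agent.Run7.h260.TW.ptower_genus L hn hK le_rfl le_rfl h

end Pool.Agent.Results.MP_e06174_ag.ImagesOfProductTowers
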