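import Pool.Agent.Run7.h260.TW.Fin

/-!
# Varieties of negative Kodaira dimension dominated by towers over hypersurfaces, over coverings of
complete intersections, and over uniruled varieties

A tower of dimension `n` with the bound `s` (`Tower 2 n Base K s`) is a sequence of dominant rational
maps of finite degree `V = V_0 ⇢ V_1 ⇢ ... ⇢ V_k` between varieties of dimension `n` over `ℂ`. At the step
`V_i ⇢ V_(i + 1)`, of degree `b_i`, the canonical bundle of `V_i` is positive relative to `V_(i + 1)`
(`Positive`, the condition of `ImagesOverUniruled`): `V_(i + 1)` is the image of `V_i` in a projective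
space, and for all varieties `Y'`, `V_i ⇢ Y' ⇢ V_(i + 1)`, of degree `> 1` over `V_(i + 1)` there is a
section of `K_(V_i) - m H` with a nonzero trace on `Y'`, where `s_i ≤ [V_i : Y'] (m + 1)`; for instance
cyclic coverings of prime degree branched along a sufficiently positive divisor. The bounds are
`s_0 = s`, `s_(i + 1) = ⌊s_i / b_i⌋`. The last variety `V_k`, with the bound `s_k`, is

* a smooth hypersurface of degree `d` in `ℙ^(n + 1)`, where for some `N` one has `d ≥ 7 N + n + 6`,
  `d > (n + 1) N`, `d > 2 (N + n - 1)` and `s_k < (N + 1) (d - n - N)`; or
* any variety with a generically finite map, of any degree, to a variety in `ℙ^(M + 1)` which is cut out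
  by equations of degree at most `D` and has the regular canonical forms `P(x) ω₀` for all forms `P`
  of degree `m`, for instance a smooth complete intersection of codimension at least two with
  `K = O(m)`; where for some `N` one has `m ≥ 7 N + 4`, `m + M + 2 > (M + 1) N`, `m + 2 ≥ D + N` and
  `s_k < (N + 1) (m + 2 - N)`; or
* any uniruled variety (in the second part: any unirational variety), without condition on `s_k`.

**Theorem.** Let `V` be the first variety of a tower with the bound `s = r`, and let `W` be a variety
with a dominant rational map `V ⇢ W` of degree `r`. The map is arbitrary: not a quotient by a group, not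
related to the tower, with any ramification. Then these are equivalent: `p_g(W) = 0`; `κ(W) = -∞`; `K_W` is
not pseudo-effective; `W` is uniruled; and, in the second part, `W` is unirational.

So Q1 has a positive answer for all projective manifolds `W` of this kind. With the best `N` the bound
for the degree `r` is of the order of `b d ^ 2` (`b = b_0 ... b_(k - 1)`) for towers over hypersurfaces
of degree `d`, and of the order of `b m ^ 2` for towers over coverings of complete intersections.

Proof. If `p_g(W) = 0` then all traces on `W` of canonical forms vanish, and at each step `V_i ⇢ W`
factors through `V_(i + 1)` (`R882.Over.factors_step`), with the degree `[V_(i + 1) : W] = [V_i : W] / b_i`.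
At the bottom, the theorem on hypersurfaces (`N162.HN.mainB`) shows that `W` is unirational, the
theorem on complete intersections (`N162.GP.pg_`) excludes `p_g(W) = 0`, and the images of uniruled
(unirational) varieties are uniruled (unirational). The starting files state the theorem for
hypersurfaces (`ImagesOfQuadraticDegree`), for one step over a uniruled variety
(`ImagesOverUniruled`), for towers in tori over uniruled varieties, and the linear range for
hypersurfaces; the towers over hypersurfaces and over coverings of complete intersections are new.
-/

set_option autoImplicit false

open FF Pool.Agent.W602.GT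
open Pool.Agent.W619.PQ (IsUniruled)
open Pool.Agent.W619.TW (IsUnirational)
open Pool.Agent.R882.Over (GenusZero)
open Pool.Agent.Run7.h260.TW (Tower)

namespace Pool.Agent.Results.MP_e06174_ag.ImagesOfTowers

/-- **Images of towers.** Let `K` be the function field of the first variety `V` of a tower of
dimension `n ≥ 1` with the bound `[K : L]`, where `L ⊆ K` is the function field of `W`. If the tower is
over a uniruled variety, a smooth hypersurface or a covering of a variety cut out by equations of low
degree, then `p_g(W) = 0`, `κ(W) = -∞`, `K_W` not pseudo-effective, and `W` uniruled are equivalent. If it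
is over a unirational variety, a hypersurface or such a covering, they are also equivalent to: `W` is
unirational. -/
theorem result {n : ℕ} (hn : 1 ≤ n) {K : Type} [Field K] [Algebra ℂ K] [Algebra.EssFiniteType ℂ K]
    (hK : Algebra.trdeg ℂ K = n) (L : Type) [Field L] [Algebra ℂ L] [Algebra L K]
    [IsScalarTower ℂ L K] [FiniteDimensional L K] :
    (Tower 2 n (fun E _ _ => IsUniruled ℂ E n) K (Module.finrank L K) →
      [GenusZero L n, ¬ KodGe ℂ L n (fun _ => False) 0, ¬ Psef ℂ L n (fun _ => False),
        IsUniruled ℂ L n].TFAE) ∧
    (Tower 2 n (fun E _ _ => IsUnirational ℂ E n) K (Module.finrank L K) →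
      [GenusZero L n, ¬ KodGe ℂ L n (fun _ => False) 0, ¬ Psef ℂ L n (fun _ => False),
        IsUniruled ℂ L n, IsUnirational ℂ L n].TFAE) :=
  ⟨fun h => Pool.Agent.Run7.h260.TW.genus_uniruled L hn hK le_rfl le_rfl h,
    fun h => Pool.Agent.Run7.h260.TW.genus_unirational L hn hK le_rfl le_rfl h⟩

end Pool.Agent.Results.MP_e06174_ag.ImagesOfTowers
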