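import Pool.Agent.Run7.h72.Final

/-!
# Negative Kodaira dimension of images of the product of a variety and a curve

Let `X` be a smooth projective variety over `ℂ` of dimension `n`, of any Kodaira dimension, and `C` a
smooth projective curve of any genus. Let `X × C ⇢ W` be a dominant rational map of finite degree to a
variety `W`. It need not be related to the product structure, and it need not be the quotient by a
group. Let `d` be the number of different points of `X` below a general fibre of `X × C ⇢ W`, i.e. the
degree over `W` of the image of `X × C` in `W × X`; it is at most the degree of `X × C ⇢ W`, which may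
be arbitrarily large.

Suppose that `N K_X - M H` is effective, where `H` is a linear system which defines a birational map
(or at least separates the points of `X` below a general fibre), and `M > 2 N (d - 1)`. More generally
one can use linear systems `H i` on `X` which separate these points one after the other: then `d` is
replaced by the degrees `d i` of the steps, `N K_X - ∑ M i H i` is effective and `M i > 2 N (d i - 1)`.
Let `a` be the dimension of the image of `X` under the map given by the `H i`.

**Theorem.** The following are equivalent: `κ(W) = -∞`; `K_W` is not pseudo-effective; `W` is uniruled;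
`W` has a fibration `W ⇢ Z` whose geometric generic fibre is a rational curve, with `dim Z = n`,
`κ(Z) ≥ a`, such that `X × C ⇢ Z` factors through a dominant rational map `X ⇢ Z` of degree at
most `d`. Otherwise `κ(W) ≥ a`.

There is no condition on `C`, on the irregularity of `X` and on the canonical forms of `X`: one only needs
pluricanonical forms, and `p_g(X) = 0` is possible; then nothing is known about the canonical forms on
`W`. The bound for `M` is optimal: let `X` be a hyperelliptic curve of genus three with a map of degree
two to an elliptic curve `X'`, so `K_X = 2 H`, and let `C` and `W = X' × C` be elliptic. Then `d = 2`,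
`M = 2 N (d - 1)` and `κ(W) = 0 < 1 = a`.

Proof. Let `T` be the function field of the image of `X × C` in `W × X`. For a differential `φ` on `C`
and an `N`-canonical form `ψ` on `X` the product of `ψ` and the `N`-th power of the trace of `φ` on `T`
is a regular `N`-canonical form of `T`, as one sees in local coordinates of `X`. The same holds for the products of `ψ` with the monomials in the functions of the systems `H i`. So if
there is a nonzero trace then the norm principle gives pluricanonical forms on `W`: if `t` generates the
last step of the tower `ℂ(W) ⊂ ... ⊂ T` then the norm of a form `ω`, multiplied by a power of the norm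
of the derivative of the minimal polynomial of `t`, is regular, if all `t ^ j ω` are, `j ≤ 2 N (d - 1)`. If
all the traces are zero then the images in `W` of the curves `{x} × C` are rational. Let `R` be one of
these rational curves, over the algebraic closure `Λ` of `ℂ(X)`. The points of `X` over the points of `R`
give a correspondence `Ξ` of degree at most `d` over `R` with a map to `X`. If the map is not constant
then the forms of `X` give nonzero regular `N`-fold differentials on the curve `Ξ` over `Λ`, by
contraction with vector fields of `Λ`, and by the norm principle on `R`, a contradiction.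

The results on rational curves and traces for the product with a curve are the ones of the starting
tree (`Pool.Agent.N145.SX` and the parts used there).
-/

set_option autoImplicit false
set_option linter.overlappingInstances false
set_option maxHeartbeats 4000000
set_option synthInstance.maxHeartbeats 400000

open FF Module IntermediateField Pool.Agent Pool.Agent.W602.GT Run7.h72
open Pool.Agent.W619.PQ (IsUniruled)

namespace Pool.Agent.Results.MP_e06174_ag.PluricanonicalTimesCurve

/-- There is a fibration `W ⇢ Z` with geometrically rational generic fibre, over a variety `Z` of
dimension `n` with `κ(Z) ≥ a`, such that `X × C ⇢ Z` is the composition of the projection to `X` with a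
dominant rational map `X ⇢ Z` of degree at most `d`. In terms of the function fields `L` of `W`, `K` of
`X × C` and `E ⊆ K` of `X`: there is a subfield `F` of `L` (the function field of `Z`), algebraically
closed in `L` and of transcendence degree `n`, the embedding of `L` in `K` maps `F` into `E`, the degree
of `E` over the image of `F` is finite and at most `d`, and over an algebraic extension `F'` of `F` there
is an embedding over `F` of `L` into the field of rational functions `F'(t)`. -/
def IsConicBundleBelow {K : Type} [Field K] [Algebra ℂ K] (E : IntermediateField ℂ K) (L : Type)
    [Field L] [Algebra ℂ L] [Algebra L K] [IsScalarTower ℂ L K] (n d a : ℕ) : Prop :=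
  ∃ F : IntermediateField ℂ L, (∀ z : L, IsAlgebraic F z → z ∈ F) ∧ Algebra.trdeg ℂ F = n ∧
    F.map (IsScalarTower.toAlgHom ℂ L K) ≤ E ∧
    0 < relfinrank (F.map (IsScalarTower.toAlgHom ℂ L K)) E ∧
    relfinrank (F.map (IsScalarTower.toAlgHom ℂ L K)) E ≤ d ∧ KodGe ℂ F n (fun _ => False) a ∧
    ∃ (F' : Type) (_ : Field F') (_ : Algebra F F'),
      Algebra.IsAlgebraic F F' ∧ Nonempty (L →ₐ[F] RatFunc F')

/-- **Negative Kodaira dimension and uniruledness.** Let `K` be the function field of `X × C`, i.e. the
compositum of the function fields `E` of the variety `X` of dimension `n` and `C` of the curve, of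
transcendence degree `n + 1`. Let `L ⊆ K` be the function field of a variety `W` such that the
extension is finite. Let `x i` (`i < c`) be families of rational functions on `X`, each containing `1`,
with `L(x 0, …, x (c - 1)) = L(E)`, let `L_i = L(x 0, …, x (i - 1))` (this is `Lv L x i`), and let `a` of
these functions be algebraically independent. Suppose that there are `N > 0`, `M i` and a nonzero
`N`-canonical form `ψ` on `X` such that all products of `ψ` with `∏ (x i (f i)) ^ M i` are regular, and
`M i > 2 N ([L_{i + 1} : L_i] - 1)`. Then the following are equivalent: `κ(W) = -∞`; `K_W` is not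
pseudo-effective; `W` is uniruled; `W` has a fibration with geometrically rational generic fibre over a
variety `Z` of dimension `n` with `κ(Z) ≥ a`, where `X × C ⇢ Z` factors through a dominant rational map
`X ⇢ Z` of degree at most `[L(E) : L]`. If `κ(W) ≥ 0` then `κ(W) ≥ a`. -/
theorem result (K : Type) [Field K] [Algebra ℂ K] [Algebra.EssFiniteType ℂ K] (n : ℕ)
    (E C : IntermediateField ℂ K) [Algebra.EssFiniteType ℂ E] [IsFF ℂ C] (hEC : E ⊔ C = ⊤)
    (hE : Algebra.trdeg ℂ E = n) (hK : Algebra.trdeg ℂ K = (n + 1 : ℕ)) (L : Type) [Field L]
    [Algebra ℂ L] [Algebra L K] [IsScalarTower ℂ L K] [FiniteDimensional L K] {c : ℕ}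
    {m : Fin c → ℕ} (x : ∀ i, Fin (m i + 1) → E) (hx : ∀ i, x i 0 = 1)
    (hgen : Lv L (fun i b => (x i b : K)) c = IntermediateField.adjoin L (E : Set K)) {N : ℕ}
    (hN : 0 < N) (M : Fin c → ℕ)
    (hM : ∀ i : Fin c, 2 * N * (finrank L (Lv L (fun i b => (x i b : K)) (i + 1)) -
      finrank L (Lv L (fun i b => (x i b : K)) i)) <
      M i * finrank L (Lv L (fun i b => (x i b : K)) i))
    {ψ : (Fin n → Derivation ℂ E E) → E} (hψ0 : ∃ D, ψ D ≠ 0)
    (hψ : ∀ f : ∀ i, Fin (m i + 1),
      LogSec ℂ E n N (fun _ => False) fun D => (∏ i, x i (f i) ^ M i) * ψ D)
    {a : ℕ} (s : Fin a → Σ i, Fin (m i + 1))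
    (hs : AlgebraicIndependent ℂ fun l => x (s l).1 (s l).2) :
    [¬ KodGe ℂ L (n + 1) (fun _ => False) 0, ¬ Psef ℂ L (n + 1) (fun _ => False),
      IsUniruled ℂ L (n + 1),
      IsConicBundleBelow E L n (finrank L (IntermediateField.adjoin L (E : Set K))) a].TFAE ∧
    (KodGe ℂ L (n + 1) (fun _ => False) 0 → KodGe ℂ L (n + 1) (fun _ => False) a) := by
  refine nonvan hEC hE hK x hx hgen hN M (fun i => ?_) hψ0 hψ s hs
  have h1 := hM i
  have e1 : 2 * N * (finrank L (Lv L (fun i b => (x i b : K)) (i + 1)) -
      finrank L (Lv L (fun i b => (x i b : K)) i)) =
      2 * (finrank L (Lv L (fun i b => (x i b : K)) (i + 1)) -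
      finrank L (Lv L (fun i b => (x i b : K)) i)) * N := by ring
  rwa [e1] at h1

end Pool.Agent.Results.MP_e06174_ag.PluricanonicalTimesCurve
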