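import Pool.Agent.Run7.h562.UF.Cov
import Pool.Agent.Run7.h562.MM.Main3

/-!
# Uniruledness of varieties dominated by products with a factor of arbitrary dimension

Let `V = X × Y`, `X = X 0 × ... × X (k - 1)`, where the `X i` are smooth projective varieties over `ℂ`
of dimension `m i`, and `Y` is an arbitrary smooth projective variety of dimension `n`. Let `V ⇢ W` be
a dominant rational map of finite degree to a variety `W`, of dimension `N = ∑ m i + n`. It need not be
related to the product structure, and it need not be the quotient by a group. Let `W_i` be the image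
of `V` in `W × X 0 × ... × X (i - 1)`, and let `d i` be the degree over `W_i` of the image of `V` in
`W_i × X i`; for example `W_0 = W`, and `d 0` is the number of different points of `X 0` below a
general fibre of `V ⇢ W`. Suppose that for all `i` the canonical forms of `X i` separate `d i`
general points; for example, `X i` is a smooth hypersurface of degree at least `m i + 1 + d i` in
projective space, or a curve of gonality greater than `d i`. There is no condition on `Y`.

Let `W' = W_k` be the image of `V` in `W × X`, and `Y'` the generic fibre of `W' → X`, a variety of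
dimension `n` over the function field of `X`, which is dominated by `Y`. If `V ⇢ W'` is birational
then `Y'` is `Y`, over the function field of `X`. The map `W' → W` is finite, of degree `∏ d i`. Then:

* `W` is uniruled if and only if `Y'` is uniruled (although `W'` is a covering of `W`, which need not
  be the generic fibre of a fibration of `W`);
* more generally, for every `r` the variety `W` is covered by a family of unirational varieties of
  dimension `r` if and only if `Y'` is; in this case `r ≤ dim Y`. In particular the general
  fibres of every rational map on `W` which are unirational (or the fibres of the maximal rationally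
  connected fibration, if they are unirational, e.g. of dimension at most two) have dimension at
  most `dim Y`;
* `p_g(W) = 0` if and only if `p_g(Y') = 0`;
* the conditions `p_g(W) = 0`, `κ(W) = -∞`, `K_W` not pseudo-effective, `W` uniruled are equivalent
  if and only if `p_g(Y') ≠ 0` or `Y'` is uniruled. So for such a `W`, of dimension `N`, the conjecture
  `κ = -∞ ⇔ uniruled` is proved whenever `Y'`, of dimension `n`, is uniruled or has `p_g(Y') ≠ 0`;
  a counterexample `W` would have `p_g(Y') = 0` and `Y'` not uniruled.

If `Y` is a curve then `p_g(Y') = 0` implies that `Y'` is a conic, so the four conditions are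
equivalent; for `k = 1` this is the theorem `MP_e06174_ag.ProductWithCurveGenusZero` of the team. The
numbers `d i` are optimal for both parts: let `X` be an elliptic curve, whose canonical forms separate
one point, and let `d = 2`. If `W = (X / {± 1}) × Y` then `W` is uniruled for all `Y`, and `Y' = Y`;
and for a bielliptic surface `W = (X × Y) / G`, where `X / G` is rational and `Y / G` elliptic,
`p_g(W) = 0` but `p_g(Y') = p_g(Y) = 1`.

Proof. Let `T × ℙ^r ⇢ W` be a dominant rational map of finite degree, `M` the function field of `T`.
So the function field `L` of `W` is embedded into `M(t_1, ..., t_r)`, and the function field `K` of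
`V`, as an algebraic extension of `L`, into an algebraic closure `Ω` of this field. The coordinates of
`X 0` in `Ω` generate an extension of degree at most `d 0` of the field of rational functions. They
are constant, i.e. algebraic over `M`: this can be checked on the lines
parallel to the coordinate axes, i.e. over the algebraic closure `Λ` of the field generated by all
but one of the `t_j`, since the intersection of these fields is the algebraic closure of `M`; there it
follows from the theorem on correspondences of degree at most `d 0` between a rational curve over `Λ`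
and `X 0` (traces of contractions of canonical forms with vector fields are differentials on the
line, so they vanish, and `d 0` points are separated). Now `W_1` is also covered, after a finite
base change of `T`, by rational varieties, and one continues with `X 1`. Finally
`T' × ℙ^r ⇢ W'` maps to `X` by a map which is constant on the factors `ℙ^r`.

If `p_g(W) = 0` then the traces on `W` of the products of canonical forms on the `X i` and on `Y` are
zero. As `d i` points of `X i` are separated, the traces on `Y'` of the canonical forms of `Y`
are zero. By the Künneth theorem for the generic fibre (see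
`MP_fa3f7f_ag.ProductsWithArbitraryFactor`) the canonical forms of `Y'` are generated by such
traces, so `p_g(Y') = 0`.

The parts of the Lean proof on pull-backs, products, separated points, correspondences on rational
curves, pseudo-effectivity and uniruledness are due to helpers 123, 221, 160, 279, 603, 545, 281,
438, 277, 145, 297 and 999.
-/

set_option autoImplicit false
set_option linter.overlappingInstances false
set_option maxHeartbeats 4000000
set_option synthInstance.maxHeartbeats 400000

open FF Module IntermediateField Pool.Agent Pool.Agent.W602.GT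
open Pool.Agent.W619.PQ (IsUniruled)

namespace Pool.Agent.Results.MP_e06174_ag.UniruledFibre

/-- **The canonical forms separate `r` general points.** `E` is the function field of a variety `X` of
dimension `m`, and `D` a rational frame of the tangent bundle. The embeddings `σ : E → Ω` are the
generic points of `X` with coordinates in the field `Ω`. At most `r` different such points impose
independent conditions on the canonical forms `ω` which are regular at all prime divisors: if
`∑ c σ * σ (ω D) = 0` for all `ω` then all the coefficients `c σ` are zero. -/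
def SeparatesPoints (E : Type) [Field E] [Algebra ℂ E] (m r : ℕ) : Prop :=
  ∀ D : Fin m → Derivation ℂ E E, LinearIndependent E D →
    ∀ (Ω : Type) [Field Ω] [Algebra ℂ Ω] [IsAlgClosed Ω] (A : Finset (E →ₐ[ℂ] Ω)), A.card ≤ r →
    ∀ c : (E →ₐ[ℂ] Ω) → Ω,
    (∀ ω : (Fin m → Derivation ℂ E E) → E, IsPluri 1 ω →
      (∀ P : Place ℂ E, Divisorial m P → RegAt P ω) → ∑ σ ∈ A, c σ * σ (ω D) = 0) →
    ∀ σ ∈ A, c σ = 0

/-- The geometric genus of the varieties with function field `L`, of dimension `N`, is zero: the only
canonical form which is regular at all prime divisors is `0`. -/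
def GenusZero (L : Type) [Field L] [Algebra ℂ L] (N : ℕ) : Prop :=
  ∀ ω : (Fin N → Derivation ℂ L L) → L, IsPluri 1 ω →
    (∀ P : Place ℂ L, Divisorial N P → RegAt P ω) → ∀ D, ω D = 0

/-- The varieties with function field `L`, of dimension `N`, are covered by a family of unirational
varieties of dimension `r`: there is a dominant rational map `T × ℙ^r ⇢ W` of finite degree, i.e. an
embedding of `L` into the field of rational functions in `r` variables over the function field `M` of
a variety `T` of dimension `N - r`. -/
def IsCovered (L : Type) [Field L] [Algebra ℂ L] (N r : ℕ) : Prop :=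
  ∃ (M : Type) (_ : Field M) (_ : Algebra ℂ M), Algebra.EssFiniteType ℂ M ∧
    Algebra.trdeg ℂ M + r = N ∧ Nonempty (L →ₐ[ℂ] FractionRing (MvPolynomial (Fin r) M))

variable {K : Type} [Field K] [Algebra ℂ K] {k : ℕ}

/-- The function field of the image `W_i` of `V` in the product of `W` and the first `i` factors.
Here `K` and `L` are the function fields of `V` and `W`, and `F l` is the one of the `l`-th
factor. -/
noncomputable def Img (F : Fin (k + 1) → IntermediateField ℂ K) (L : Type) [Field L] [Algebra L K]
    (i : ℕ) : IntermediateField L K :=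
  IntermediateField.adjoin L {z | ∃ l : Fin (k + 1), l.val < i ∧ z ∈ F l}

/-- The degree over `W_i` of the image of `V` in the product of `W_i` and the `i`-th factor. -/
noncomputable def deg (F : Fin (k + 1) → IntermediateField ℂ K) (L : Type) [Field L] [Algebra L K]
    (i : Fin (k + 1)) : ℕ :=
  finrank (Img F L i) (IntermediateField.adjoin (Img F L i) (F i : Set K))

/-- The function field of the product `X` of the first `k` factors. -/
noncomputable def Base (F : Fin (k + 1) → IntermediateField ℂ K) : IntermediateField ℂ K :=
  ⨆ i : Fin k, F i.castSucc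

/-- The geometric genus of the generic fibre `Y'` of `W' → X` is zero: the canonical forms of `Y'` are
the ones of `W'` which are regular at all prime divisors over `W'` which dominate `X`, i.e. at the
divisorial places `P` which are trivial on the function field of `X`. -/
def FibreGenusZero (F : Fin (k + 1) → IntermediateField ℂ K) (L : Type) [Field L]
    [Algebra ℂ L] [Algebra L K] [IsScalarTower ℂ L K] (N : ℕ) : Prop :=
  ∀ ω : (Fin N → Derivation ℂ (Img F L k) (Img F L k)) → Img F L k, IsPluri 1 ω →
    (∀ P : Place ℂ (Img F L k), Divisorial N P →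
      (∀ f : Img F L k, (f : K) ∈ Base F → P.ord f = 0) → RegAt P ω) → ∀ D, ω D = 0

/-- The generic fibre `Y'` of `W' → X` is covered by a family of unirational varieties of dimension
`r` (for `r = 1`: it is uniruled): there is a dominant rational map `T × ℙ^r ⇢ W'` of finite degree
whose composition with `W' → X` is constant on the factors `ℙ^r`. I.e. there is an embedding of the
function field of `W'` into the field of rational functions in `r` variables over the function field
`M` of a variety `T` of dimension `N - r`, `N = dim W'`, which maps the function field of `X` into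
`M`. -/
def FibreIsCovered (F : Fin (k + 1) → IntermediateField ℂ K) (L : Type) [Field L]
    [Algebra ℂ L] [Algebra L K] [IsScalarTower ℂ L K] (N r : ℕ) : Prop :=
  ∃ (M : Type) (_ : Field M) (_ : Algebra ℂ M), Algebra.EssFiniteType ℂ M ∧
    Algebra.trdeg ℂ M + r = N ∧ ∃ ψ : Img F L k →ₐ[ℂ] FractionRing (MvPolynomial (Fin r) M),
      ∀ f : Img F L k, (f : K) ∈ Base F → ∃ c : M,
        ψ f = algebraMap M (FractionRing (MvPolynomial (Fin r) M)) c

theorem deg_eq (F : Fin (k + 1) → IntermediateField ℂ K) (L : Type) [Field L] [Algebra ℂ L]
    [Algebra L K] [IsScalarTower ℂ L K] [FiniteDimensional L K] (i : Fin (k + 1)) :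
    deg F L i = finrank (N145.PC.MF F L (N145.PC.Js (k + 1) i))
      (IntermediateField.adjoin (N145.PC.MF F L (N145.PC.Js (k + 1) i)) (F i : Set K)) := by
  unfold deg Img
  rw [N145.SX.mf_eq]

theorem img_eq (F : Fin (k + 1) → IntermediateField ℂ K) (L : Type) [Field L] [Algebra ℂ L]
    [Algebra L K] [IsScalarTower ℂ L K] [FiniteDimensional L K] :
    N145.PC.MF F L (Finset.univ.erase (Fin.last k)) = Img F L k := by
  unfold Img
  rw [← N145.SX.erase_last, N145.SX.mf_eq]

/-- **Uniruledness of the varieties dominated by a product.** Let `K` be the function field of the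
product `V` of the varieties with the function fields `F i`, `i < k`, of dimension `m i`, and of the
variety `Y` with the function field `F k`, of dimension `n`, i.e. `K` is the compositum and its
transcendence degree is `N = ∑ m i + n`. Let `L ⊆ K` be the function field of a variety `W` such that
the extension is finite. Suppose that for all `i < k` the canonical forms of the `i`-th variety
separate `d i` general points, where `d i` is the degree over `W_i` of the image of `V` in the product
of `W_i` and this variety. Let `X` be the product of the first `k` varieties and `Y'` the generic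
fibre over `X` of the image `W'` of `V` in `W × X`. Then:
* `W` is covered by a family of unirational varieties of dimension `r` if and only if `Y'` is, and
  then `r ≤ n`;
* `W` is uniruled if and only if `Y'` is uniruled;
* `p_g(W) = 0` if and only if `p_g(Y') = 0`;
* `p_g(W) = 0`, `κ(W) = -∞`, `K_W` not pseudo-effective, and `W` uniruled are equivalent if and only
  if `p_g(Y') ≠ 0` or `Y'` is uniruled. -/
theorem result [Algebra.EssFiniteType ℂ K] (m : Fin k → ℕ) (n : ℕ)
    (F : Fin (k + 1) → IntermediateField ℂ K) [∀ i, Algebra.EssFiniteType ℂ (F i)]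
    (hF : ⨆ i, F i = ⊤) (hm : ∀ i : Fin k, Algebra.trdeg ℂ (F i.castSucc) = m i)
    (hn : Algebra.trdeg ℂ (F (Fin.last k)) = n)
    (hK : Algebra.trdeg ℂ K = (∑ i, m i + n : ℕ)) (L : Type) [Field L] [Algebra ℂ L]
    [Algebra L K] [IsScalarTower ℂ L K] [FiniteDimensional L K]
    (hX : ∀ i : Fin k, SeparatesPoints (F i.castSucc) (m i) (deg F L i.castSucc)) :
    (∀ r : ℕ, (IsCovered L (∑ i, m i + n) r ↔ FibreIsCovered F L (∑ i, m i + n) r) ∧
      (IsCovered L (∑ i, m i + n) r → r ≤ n)) ∧
    (IsUniruled ℂ L (∑ i, m i + n) ↔ FibreIsCovered F L (∑ i, m i + n) 1) ∧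
    (GenusZero L (∑ i, m i + n) ↔ FibreGenusZero F L (∑ i, m i + n)) ∧
    ([GenusZero L (∑ i, m i + n), ¬ KodGe ℂ L (∑ i, m i + n) (fun _ => False) 0,
      ¬ Psef ℂ L (∑ i, m i + n) (fun _ => False), IsUniruled ℂ L (∑ i, m i + n)].TFAE ↔
      ¬ FibreGenusZero F L (∑ i, m i + n) ∨ FibreIsCovered F L (∑ i, m i + n) 1) := by
  have hL : Algebra.trdeg ℂ L = (∑ i, m i + n : ℕ) :=
    Pool.Agent.Y184.NT.trdeg_below (K := K) hK
  have hessL : Algebra.EssFiniteType ℂ L := Pool.Agent.TH466.QG.ess_below (K := K)
  obtain ⟨e⟩ : Nonempty (Fin (∑ i, m i) ≃ (i : Fin k) × Fin (m i)) := ⟨finSigmaFinEquiv.symm⟩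
  choose x D hx hD using fun i : Fin k => Pool.Agent.Y172.exists_crd (hm i)
  obtain ⟨y, -, hy, -⟩ := Pool.Agent.Y172.exists_crd hn
  have hsep : ∀ i : Fin k, N145.SX.SepX (x i) (fun _ => False) (deg F L i.castSucc + 1) :=
    fun i => N145.SX.sepX_of' (hx i) (hD i) fun Ω _ _ _ A hA c hc =>
      hX i (D i) (N145.SX.dual_indep (hD i)) Ω A hA c hc
  have hd : ∀ i : Fin k, finrank (N145.PC.MF F L (N145.PC.Js (k + 1) i))
      (IntermediateField.adjoin (N145.PC.MF F L (N145.PC.Js (k + 1) i)) (F i.castSucc : Set K)) <
      deg F L i.castSucc + 1 := fun i => by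
    rw [deg_eq]
    exact Nat.lt_succ_self _
  have hd' : ∀ i : Fin k, finrank (Run7.h562.UF.Im F L i)
      (IntermediateField.adjoin (Run7.h562.UF.Im F L i) (F i.castSucc : Set K)) <
      deg F L i.castSucc + 1 := fun i => Nat.lt_succ_self _
  have hE := Run7.h562.MM.trdeg_base hF hK hx hy e
  -- coverings
  have h1 : ∀ r, IsCovered L (∑ i, m i + n) r → FibreIsCovered F L (∑ i, m i + n) r := fun r hr =>
    Run7.h562.UF.cov_lift hm hx hsep hd' hr
  have h2 : ∀ r, FibreIsCovered F L (∑ i, m i + n) r → IsCovered L (∑ i, m i + n) r := by
    rintro r ⟨M, iF, iA, ha, hb, ψ, -⟩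
    exact ⟨M, iF, iA, ha, hb, ⟨ψ.comp (IsScalarTower.toAlgHom ℂ L (Img F L k))⟩⟩
  have h3 : IsUniruled ℂ L (∑ i, m i + n) ↔ IsCovered L (∑ i, m i + n) 1 := by
    constructor
    · rintro ⟨M, iF, iA, ha, hb, ⟨φ⟩⟩
      obtain ⟨ee⟩ := Run7.h562.UF.ratFunc_equiv M
      exact ⟨M, iF, iA, ha, by exact_mod_cast hb, ⟨ee.toAlgHom.comp φ⟩⟩
    · rintro ⟨M, iF, iA, ha, hb, ⟨φ⟩⟩
      obtain ⟨ee⟩ := Run7.h562.UF.ratFunc_equiv M
      exact ⟨M, iF, iA, ha, by exact_mod_cast hb, ⟨ee.symm.toAlgHom.comp φ⟩⟩
  have h4 : IsUniruled ℂ L (∑ i, m i + n) ↔ FibreIsCovered F L (∑ i, m i + n) 1 :=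
    h3.trans ⟨h1 1, h2 1⟩
  -- the geometric genus
  have h5 : GenusZero L (∑ i, m i + n) ↔ ¬ N145.SX.CanGe L (∑ i, m i + n) 0 := by
    constructor
    · rintro h ⟨ω, hω, D, hD0, -⟩
      exact hD0 (h (ω 0) (hω 0).1 (hω 0).2 D)
    · intro h ω hω hreg D
      by_contra hne
      exact h ⟨fun _ => ω, fun _ => ⟨hω, hreg⟩, D, hne,
        (algebraicIndependent_empty_type_iff (x := fun i : Fin 0 => ω D / ω D)).2
          (algebraMap ℂ L).injective⟩
  have h6 : FibreGenusZero F L (∑ i, m i + n) ↔
      ¬ Run7.h562.MM.FibGe (Img F L k) (Base F) (∑ i, m i + n) 0 := by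
    constructor
    · rintro h ⟨ω, hω, D, hD0, -⟩
      exact hD0 (h (ω 0) (hω 0).1 (hω 0).2 D)
    · intro h ω hω hreg D
      by_contra hne
      exact h ⟨fun _ => ω, fun _ => ⟨hω, hreg⟩, D, hne,
        (algebraicIndependent_empty_type_iff
          (x := fun i : Fin 0 => ((ω D / ω D : Img F L k) : K))).2
          (algebraMap (Base F) K).injective⟩
  have h7 : GenusZero L (∑ i, m i + n) ↔ FibreGenusZero F L (∑ i, m i + n) := by
    rw [h5, h6, not_iff_not]
    constructor
    · exact fun h => Run7.h562.MM.pg_iff_fib hK h
    · intro h
      exact Run7.h562.UF.pg_from (L := L) hF hm hn e hK hx hy hsep hd (by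
        rw [img_eq]
        exact h)
  -- the equivalences
  have h8 : (GenusZero L (∑ i, m i + n) → IsUniruled ℂ L (∑ i, m i + n)) →
      [GenusZero L (∑ i, m i + n), ¬ KodGe ℂ L (∑ i, m i + n) (fun _ => False) 0,
      ¬ Psef ℂ L (∑ i, m i + n) (fun _ => False), IsUniruled ℂ L (∑ i, m i + n)].TFAE := by
    intro h
    have h9 : Pool.Agent.R882.LT.LogGenusZero L (∑ i, m i + n) (fun _ => False) ↔
        GenusZero L (∑ i, m i + n) := by
      constructor
      · intro h ω h1 h2 D
        refine h ω ⟨h1, fun P hP D' hD' => h2 P hP D' fun i f hf => ?_, fun P hP _ => h2 P hP⟩ D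
        by_cases h0 : f = 0
        · rw [h0, map_zero]
          exact Or.inl rfl
        · have h3 := P.reg_mul (hD' i f) hf
          rwa [div_mul_cancel₀ _ h0] at h3
      · intro h ω h1 D
        exact h ω h1.1 (fun P hP => h1.2.2 P hP not_false) D
    have h10 := N145.PL.tfaeL hL (BL := fun _ => False) fun hg =>
      Run7.h562.UF.a1_iff.2 (h (h9.1 hg))
    rw [h9, Run7.h562.UF.a1_iff] at h10
    exact h10
  refine ⟨fun r => ⟨⟨h1 r, h2 r⟩, fun h => Run7.h562.UF.cov_dim hE (h1 r h)⟩, h4, h7, ?_, ?_⟩
  · intro h
    by_cases h9 : FibreGenusZero F L (∑ i, m i + n)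
    · exact Or.inr (h4.1 ((h.out 0 3).1 (h7.2 h9)))
    · exact Or.inl h9
  · rintro (h | h)
    · exact h8 fun hg => absurd (h7.1 hg) h
    · exact h8 fun _ => h4.2 h

end Pool.Agent.Results.MP_e06174_ag.UniruledFibre
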